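import Pool.Agent.FGT.Stmts

/-!
# Squad FGT, row KRA
-/

set_option autoImplicit false

namespace Pool.Agent.FGT.H10

open Filter Topology

universe u

section

variable {L : Type u} [Group L] (α : L →* Equiv.Perm ℤ) (I : (ℤ → ℝ) → ℝ)

theorem fg_bot' : (⊥ : Subgroup L).FG := ⟨∅, by simp⟩

theorem dd_ne (z : ℤ) :
    {r | ∃ K : Subgroup L, K.FG ∧ z ∈ Fx α K ∧ r = ms I (II α K)}.Nonempty := by
  refine ⟨_, ⊥, fg_bot', ?_, rfl⟩
  intro g hg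
  rw [Subgroup.mem_bot] at hg
  rw [hg, map_one]
  rfl

theorem kk_ne (z z' : ℤ) :
    {r | ∃ K K' : Subgroup L, K.FG ∧ K'.FG ∧ z ∈ Fx α K ∧ z' ∈ Fx α K' ∧
    r = ms I {y | y ∈ II α K ∧ y ∈ II α K' ∧ Lk α y z z'}}.Nonempty := by
  refine ⟨_, ⊥, ⊥, fg_bot', fg_bot', ?_, ?_, rfl⟩
  · intro g hg
    rw [Subgroup.mem_bot] at hg
    rw [hg, map_one]
    rfl
  · intro g hg
    rw [Subgroup.mem_bot] at hg
    rw [hg, map_one]
    rfl

variable {I}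

theorem dd_bdd (hI : IsMean I) (z : ℤ) :
    BddAbove {r | ∃ K : Subgroup L, K.FG ∧ z ∈ Fx α K ∧ r = ms I (II α K)} := by
  refine ⟨1, ?_⟩
  rintro r ⟨K, -, -, rfl⟩
  exact hI.ms_le_one _

theorem kk_bdd (hI : IsMean I) (z z' : ℤ) :
    BddAbove {r | ∃ K K' : Subgroup L, K.FG ∧ K'.FG ∧ z ∈ Fx α K ∧ z' ∈ Fx α K' ∧
    r = ms I {y | y ∈ II α K ∧ y ∈ II α K' ∧ Lk α y z z'}} := by
  refine ⟨1, ?_⟩
  rintro r ⟨K, K', -, -, -, -, rfl⟩
  exact hI.ms_le_one _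

/-- the conjugate subgroup -/
def cj (g : L) (K : Subgroup L) : Subgroup L := K.map (MulAut.conj g).toMonoidHom

theorem mem_cj {g : L} {K : Subgroup L} {x : L} : x ∈ cj g K ↔ ∃ k ∈ K, g * k * g⁻¹ = x := by
  unfold cj
  rw [Subgroup.mem_map]
  rfl

theorem cj_fg {g : L} {K : Subgroup L} (h : K.FG) : (cj g K).FG := by
  obtain ⟨S, hS⟩ := h
  classical
  refine ⟨S.image (MulAut.conj g).toMonoidHom, ?_⟩
  unfold cj
  rw [← hS, Finset.coe_image, MonoidHom.map_closure]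

theorem act_mul (g h : L) (z : ℤ) : α (g * h) z = α g (α h z) := by
  rw [map_mul]
  rfl

theorem act_inv (g : L) (z : ℤ) : α g⁻¹ (α g z) = z := by
  rw [← act_mul, inv_mul_cancel, map_one]
  rfl

theorem act_inv' (g : L) (z : ℤ) : α g (α g⁻¹ z) = z := by
  rw [← act_mul, mul_inv_cancel, map_one]
  rfl

theorem fx_cj {g : L} {K : Subgroup L} {z : ℤ} (h : z ∈ Fx α K) : α g z ∈ Fx α (cj g K) := by
  intro x hx
  obtain ⟨k, hk, rfl⟩ := mem_cj.1 hx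
  rw [act_mul, act_mul, act_inv, h k hk]

theorem orb_cj (g : L) (K : Subgroup L) (j : ℤ) :
    orb α (cj g K) (α g j) = (α g) '' orb α K j := by
  ext i
  constructor
  · rintro ⟨x, hx, rfl⟩
    obtain ⟨k, hk, rfl⟩ := mem_cj.1 hx
    refine ⟨α k j, ⟨k, hk, rfl⟩, ?_⟩
    rw [act_mul, act_mul, act_inv]
  · rintro ⟨i', ⟨k, hk, rfl⟩, rfl⟩
    refine ⟨g * k * g⁻¹, mem_cj.2 ⟨k, hk, rfl⟩, ?_⟩
    rw [act_mul, act_mul, act_inv]

theorem mem_ii_cj (g : L) (K : Subgroup L) (j : ℤ) : α g j ∈ II α (cj g K) ↔ j ∈ II α K := by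
  show (orb α (cj g K) (α g j)).Infinite ↔ (orb α K j).Infinite
  rw [orb_cj]
  exact Set.infinite_image_iff (α g).injective.injOn

theorem ii_cj (g : L) (K : Subgroup L) : II α (cj g K) = (α g) '' II α K := by
  ext i
  constructor
  · intro hi
    refine ⟨α g⁻¹ i, ?_, act_inv' α g i⟩
    rw [← mem_ii_cj α g K, act_inv']
    exact hi
  · rintro ⟨j, hj, rfl⟩
    exact (mem_ii_cj α g K j).2 hj

theorem lk_cj {g : L} {y z z' : ℤ} : Lk α (α g y) (α g z) (α g z') ↔ Lk α y z z' := by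
  constructor
  · rintro ⟨h, h1, h2⟩
    refine ⟨g⁻¹ * h * g, ?_, ?_⟩
    · rw [act_mul, act_mul, h1, act_inv]
    · rw [act_mul, act_mul, h2, act_inv]
  · rintro ⟨h, h1, h2⟩
    refine ⟨g * h * g⁻¹, ?_, ?_⟩
    · rw [act_mul, act_mul, act_inv, h1]
    · rw [act_mul, act_mul, act_inv, h2]

theorem lk_symm {y z z' : ℤ} (h : Lk α y z z') : Lk α y z' z := by
  obtain ⟨g, h1, h2⟩ := h
  refine ⟨g⁻¹, ?_, ?_⟩
  · conv_lhs => rw [← h1]
    exact act_inv α g y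
  · rw [← h2]
    exact act_inv α g z

theorem dd_le (hα : BDp α) (hI : IsMean I) (g : L) (z : ℤ) : DD α I z ≤ DD α I (α g z) := by
  unfold DD
  refine csSup_le (dd_ne α I z) ?_
  rintro r ⟨K, hK, hz, rfl⟩
  obtain ⟨R, hR⟩ := hα g
  refine le_csSup (dd_bdd α hI _) ⟨cj g K, cj_fg hK, fx_cj α hz, ?_⟩
  rw [ii_cj, hI.ms_perm (α g) R hR]

theorem set_cj (g : L) (K K' : Subgroup L) (z z' : ℤ) :
    {y | y ∈ II α (cj g K) ∧ y ∈ II α (cj g K') ∧ Lk α y (α g z) (α g z')} =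
      (α g) '' {y | y ∈ II α K ∧ y ∈ II α K' ∧ Lk α y z z'} := by
  ext i
  constructor
  · rintro ⟨h1, h2, h3⟩
    refine ⟨α g⁻¹ i, ⟨?_, ?_, ?_⟩, act_inv' α g i⟩
    · rw [← mem_ii_cj α g K, act_inv']
      exact h1
    · rw [← mem_ii_cj α g K', act_inv']
      exact h2
    · rw [← lk_cj α (g := g), act_inv']
      exact h3
  · rintro ⟨j, ⟨h1, h2, h3⟩, rfl⟩
    exact ⟨(mem_ii_cj α g K j).2 h1, (mem_ii_cj α g K' j).2 h2, (lk_cj α).2 h3⟩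

theorem kk_le (hα : BDp α) (hI : IsMean I) (g : L) (z z' : ℤ) :
    kk α I z z' ≤ kk α I (α g z) (α g z') := by
  unfold kk
  refine csSup_le (kk_ne α I z z') ?_
  rintro r ⟨K, K', hK, hK', hz, hz', rfl⟩
  obtain ⟨R, hR⟩ := hα g
  refine le_csSup (kk_bdd α hI _ _)
    ⟨cj g K, cj g K', cj_fg hK, cj_fg hK', fx_cj α hz, fx_cj α hz', ?_⟩
  rw [set_cj, hI.ms_perm (α g) R hR]

theorem kk_symm_le (hI : IsMean I) (z z' : ℤ) : kk α I z z' ≤ kk α I z' z := by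
  unfold kk
  refine csSup_le (kk_ne α I z z') ?_
  rintro r ⟨K, K', hK, hK', hz, hz', rfl⟩
  refine le_csSup (kk_bdd α hI _ _) ⟨K', K, hK', hK, hz', hz, ?_⟩
  congr 1
  ext y
  constructor
  · rintro ⟨h1, h2, h3⟩
    exact ⟨h2, h1, lk_symm α h3⟩
  · rintro ⟨h1, h2, h3⟩
    exact ⟨h2, h1, lk_symm α h3⟩

theorem le_dd (hI : IsMean I) (z : ℤ) (K : Subgroup L) (hK : K.FG) (hz : z ∈ Fx α K) :
    ms I (II α K) ≤ DD α I z :=
  le_csSup (dd_bdd α hI z) ⟨K, hK, hz, rfl⟩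

theorem le_kk (hI : IsMean I) (z z' : ℤ) (K K' : Subgroup L) (hK : K.FG) (hK' : K'.FG)
    (hz : z ∈ Fx α K) (hz' : z' ∈ Fx α K') :
    ms I {y | y ∈ II α K ∧ y ∈ II α K' ∧ Lk α y z z'} ≤ kk α I z z' :=
  le_csSup (kk_bdd α hI z z') ⟨K, K', hK, hK', hz, hz', rfl⟩

theorem kk_le_dd (hI : IsMean I) (z z' : ℤ) : kk α I z z' ≤ DD α I z := by
  unfold kk
  refine csSup_le (kk_ne α I z z') ?_
  rintro r ⟨K, K', hK, hK', hz, hz', rfl⟩
  exact (hI.ms_mono fun y hy => hy.1).trans (le_dd α hI z K hK hz)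

end

theorem kra : KraStmt.{u} := by
  intro L _ α hα I hI
  have hsymm : ∀ z z' : ℤ, kk α I z z' = kk α I z' z := fun z z' =>
    le_antisymm (kk_symm_le α hI z z') (kk_symm_le α hI z' z)
  refine ⟨fun g z => le_antisymm ?_ (dd_le α hα hI g z), fun g z z' =>
    le_antisymm ?_ (kk_le α hα hI g z z'), hsymm, fun z => le_antisymm (kk_le_dd α hI z z) ?_,
    fun z z' => ⟨?_, kk_le_dd α hI z z', ?_⟩, fun z K hK hz => le_dd α hI z K hK hz,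
    fun z z' K K' hK hK' hz hz' => le_kk α hI z z' K K' hK hK' hz hz'⟩
  · have h := dd_le α hα hI g⁻¹ (α g z)
    rwa [act_inv] at h
  · have h := kk_le α hα hI g⁻¹ (α g z) (α g z')
    rwa [act_inv, act_inv] at h
  · unfold DD
    refine csSup_le (dd_ne α I z) ?_
    rintro r ⟨K, hK, hz, rfl⟩
    refine le_trans (hI.ms_mono ?_) (le_kk α hI z z K K hK hK hz hz)
    intro y hy
    exact ⟨hy, hy, 1, by rw [map_one]; rfl, by rw [map_one]; rfl⟩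
  · obtain ⟨r, hr⟩ := kk_ne α I z z'
    have h1 : r ≤ kk α I z z' := le_csSup (kk_bdd α hI z z') hr
    obtain ⟨K, K', -, -, -, -, rfl⟩ := hr
    exact (hI.ms_nonneg _).trans h1
  · rw [hsymm]
    exact kk_le_dd α hI z' z

end Pool.Agent.FGT.H10
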